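import Pool.Agent.Helper22.TL.Spec

set_option autoImplicit false

/-! # TL, part CELL: barycentric coordinates, cells, interiors, closedness, skeleta -/

namespace TL

open Set

namespace CellAux

variable {d : ℕ}

/-- the affine basis of an affinely independent family of `d + 1` points -/
noncomputable def bas (p : Fin (d + 1) → E d) (h : AffineIndependent ℝ p) :
    AffineBasis (Fin (d + 1)) ℝ (E d) :=
  ⟨p, h, by
    rw [h.affineSpan_eq_top_iff_card_eq_finrank_add_one]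
    simp⟩

theorem bas_coe (p : Fin (d + 1) → E d) (h : AffineIndependent ℝ p) : ⇑(bas p h) = p := rfl

theorem coord_eq (p : Fin (d + 1) → E d) (h : AffineIndependent ℝ p) (a : Fin (d + 1) → ℝ)
    (ha : ∑ i, a i = 1) (i : Fin (d + 1)) : (bas p h).coord i (∑ j, a j • p j) = a i := by
  have h1 := (bas p h).coord_apply_combination_of_mem (Finset.mem_univ i) ha
  rw [Finset.affineCombination_eq_linear_combination _ _ _ ha] at h1
  exact h1

theorem eq_comb (p : Fin (d + 1) → E d) (h : AffineIndependent ℝ p) (x : E d) :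
    x = ∑ j, (bas p h).coord j x • p j :=
  ((bas p h).linear_combination_coord_eq_self x).symm

theorem mem_hull (p : Fin (d + 1) → E d) (h : AffineIndependent ℝ p) (x : E d) :
    x ∈ convexHull ℝ (range p) ↔ ∃ a : Fin (d + 1) → ℝ, (∀ i, 0 ≤ a i) ∧ ∑ i, a i = 1 ∧
      x = ∑ i, a i • p i := by
  have h0 : convexHull ℝ (range p) = {x | ∀ i, 0 ≤ (bas p h).coord i x} :=
    (bas p h).convexHull_eq_nonneg_coord
  rw [h0, mem_ofPred_eq]
  constructor
  · intro hx
    exact ⟨fun i => (bas p h).coord i x, hx, (bas p h).sum_coord_apply_eq_one x, eq_comb p h x⟩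
  · rintro ⟨a, ha, hs, rfl⟩ i
    rw [coord_eq p h a hs]
    exact ha i

theorem mem_int (p : Fin (d + 1) → E d) (h : AffineIndependent ℝ p) (x : E d) :
    x ∈ interior (convexHull ℝ (range p)) ↔ ∃ a : Fin (d + 1) → ℝ, (∀ i, 0 < a i) ∧ ∑ i, a i = 1 ∧
      x = ∑ i, a i • p i := by
  have h0 : interior (convexHull ℝ (range p)) = {x | ∀ i, 0 < (bas p h).coord i x} :=
    (bas p h).interior_convexHull
  rw [h0, mem_ofPred_eq]
  constructor
  · intro hx
    exact ⟨fun i => (bas p h).coord i x, hx, (bas p h).sum_coord_apply_eq_one x, eq_comb p h x⟩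
  · rintro ⟨a, ha, hs, rfl⟩ i
    rw [coord_eq p h a hs]
    exact ha i

theorem int_ne (p : Fin (d + 1) → E d) (h : AffineIndependent ℝ p) :
    (interior (convexHull ℝ (range p))).Nonempty :=
  ⟨_, (bas p h).centroid_mem_interior_convexHull⟩

variable {Fl V : Type} (X : Cx d Fl V)

theorem mem_cell (Φ : Fl) (x : E d) : x ∈ X.cell Φ ↔ ∃ a : Fin (d + 1) → ℝ, (∀ i, 0 ≤ a i) ∧
    ∑ i, a i = 1 ∧ x = ∑ i, a i • X.pt (X.L Φ i) := mem_hull _ (X.aff Φ) x

theorem mem_intc (Φ : Fl) (x : E d) : x ∈ interior (X.cell Φ) ↔ ∃ a : Fin (d + 1) → ℝ,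
    (∀ i, 0 < a i) ∧ ∑ i, a i = 1 ∧ x = ∑ i, a i • X.pt (X.L Φ i) := mem_int _ (X.aff Φ) x

theorem cell_int_ne (Φ : Fl) : (interior (X.cell Φ)).Nonempty := int_ne _ (X.aff Φ)

theorem cell_ne (Φ : Fl) : (X.cell Φ).Nonempty := (cell_int_ne X Φ).mono interior_subset

theorem cell_cpt (Φ : Fl) : IsCompact (X.cell Φ) :=
  (Set.finite_range _).isCompact_convexHull ℝ

theorem cell_conv (Φ : Fl) : Convex ℝ (X.cell Φ) := convex_convexHull ℝ _

theorem cell_cl (Φ : Fl) : X.cell Φ ⊆ closure (interior (X.cell Φ)) := by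
  rw [(cell_conv X Φ).closure_interior_eq_closure_of_nonempty_interior (cell_int_ne X Φ)]
  exact subset_closure

include X in
theorem cntb : Countable Fl := by
  have h : (⋃ n : ℕ, {Φ : Fl | (X.cell Φ ∩ Metric.closedBall (0 : E d) n).Nonempty}) = univ := by
    refine eq_univ_of_forall fun Φ => ?_
    obtain ⟨x, hx⟩ := cell_ne X Φ
    obtain ⟨n, hn⟩ := exists_nat_ge ‖x‖
    exact mem_iUnion.2 ⟨n, x, hx, by simpa using hn⟩
  rw [← Set.countable_univ_iff, ← h]
  exact Set.countable_iUnion fun n => (X.lf _ (isCompact_closedBall _ _)).countable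

theorem int_eq (Φ Ψ : Fl) (h : (interior (X.cell Φ) ∩ X.cell Ψ).Nonempty) : Φ = Ψ := by
  obtain ⟨x, h1, h2⟩ := h
  obtain ⟨a, ha, hs, hx⟩ := (mem_intc X Φ x).1 h1
  obtain ⟨b, hb, hs', hx'⟩ := (mem_cell X Ψ x).1 h2
  have := X.t3 Φ Ψ a b (fun i => (ha i).le) hb hs hs' (hx.symm.trans hx')
  exact X.inj Φ Ψ (funext fun i => this.2 i (ha i))

/-- locally finite unions of closed subsets of the cells are closed -/
theorem closed_union (f : Fl → Set (E d)) (hf : ∀ Φ, IsClosed (f Φ)) (hs : ∀ Φ, f Φ ⊆ X.cell Φ) :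
    IsClosed (⋃ Φ, f Φ) := by
  apply LocallyFinite.isClosed_iUnion _ hf
  intro x
  refine ⟨Metric.closedBall x 1, Metric.closedBall_mem_nhds x one_pos, ?_⟩
  refine (X.lf _ (isCompact_closedBall x 1)).subset ?_
  rintro Φ ⟨y, hy, hy'⟩
  exact ⟨y, hs Φ hy, hy'⟩

theorem closed_bUnion (𝒜 : Set Fl) (f : Fl → Set (E d)) (hf : ∀ Φ, IsClosed (f Φ))
    (hs : ∀ Φ, f Φ ⊆ X.cell Φ) : IsClosed (⋃ Φ ∈ 𝒜, f Φ) := by
  classical
  have h : (⋃ Φ ∈ 𝒜, f Φ) = ⋃ Φ, (if Φ ∈ 𝒜 then f Φ else ∅) := by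
    ext x
    simp only [mem_iUnion]
    constructor
    · rintro ⟨Φ, hΦ, hx⟩
      exact ⟨Φ, by rwa [if_pos hΦ]⟩
    · rintro ⟨Φ, hx⟩
      by_cases hΦ : Φ ∈ 𝒜
      · rw [if_pos hΦ] at hx
        exact ⟨Φ, hΦ, hx⟩
      · rw [if_neg hΦ] at hx
        exact hx.elim
  rw [h]
  apply closed_union X
  · intro Φ
    split_ifs
    · exact hf Φ
    · exact isClosed_empty
  · intro Φ
    split_ifs
    · exact hs Φ
    · exact empty_subset _

theorem nbhd (x : E d) : ∃ ε > 0, ∀ Φ, (X.cell Φ ∩ Metric.ball x ε).Nonempty → x ∈ X.cell Φ := by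
  have h1 : IsClosed (⋃ Φ ∈ {Φ | x ∉ X.cell Φ}, X.cell Φ) :=
    closed_bUnion X _ _ (fun Φ => (cell_cpt X Φ).isClosed) (fun Φ => subset_rfl)
  have h2 : x ∈ (⋃ Φ ∈ {Φ | x ∉ X.cell Φ}, X.cell Φ)ᶜ := by
    simp only [mem_compl_iff, mem_iUnion, not_exists]
    intro Φ hΦ
    exact hΦ
  obtain ⟨ε, hε, hb⟩ := Metric.isOpen_iff.1 h1.isOpen_compl x h2
  refine ⟨ε, hε, ?_⟩
  rintro Φ ⟨y, hy, hyb⟩
  by_contra hx
  exact hb hyb (mem_iUnion₂.2 ⟨Φ, hx, hy⟩)

/-- the part of the skeleton inside one cell -/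
def sk (k : ℕ) (Φ : Fl) : Set (E d) :=
  {x | ∃ a : Fin (d + 1) → ℝ, (∀ i, 0 ≤ a i) ∧ ∑ i, a i = 1 ∧
    x = ∑ i, a i • X.pt (X.L Φ i) ∧ k ≤ (Finset.univ.filter fun i => a i = 0).card}

theorem skel_eq (k : ℕ) : X.skel k = ⋃ Φ, sk X k Φ := by
  ext x
  simp only [Cx.skel, sk, mem_iUnion, mem_ofPred_eq]

theorem sk_sub (k : ℕ) (Φ : Fl) : sk X k Φ ⊆ X.cell Φ := by
  rintro x ⟨a, ha, hs, hx, _⟩
  exact (mem_cell X Φ x).2 ⟨a, ha, hs, hx⟩

theorem sk_closed (k : ℕ) (Φ : Fl) : IsClosed (sk X k Φ) := by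
  classical
  have h1 : sk X k Φ = (fun a : Fin (d + 1) → ℝ => ∑ i, a i • X.pt (X.L Φ i)) ''
      (stdSimplex ℝ (Fin (d + 1)) ∩
        ⋃ J ∈ {J : Finset (Fin (d + 1)) | k ≤ J.card}, {a | ∀ i ∈ J, a i = 0}) := by
    ext x
    constructor
    · rintro ⟨a, ha, hs, hx, hk⟩
      refine ⟨a, ⟨⟨ha, hs⟩, mem_iUnion₂.2 ⟨Finset.univ.filter fun i => a i = 0, hk, ?_⟩⟩, hx.symm⟩
      intro i hi
      exact (Finset.mem_filter.1 hi).2
    · rintro ⟨a, ⟨⟨ha, hs⟩, hJ⟩, rfl⟩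
      obtain ⟨J, hJk, hJ0⟩ := mem_iUnion₂.1 hJ
      refine ⟨a, ha, hs, rfl, le_trans hJk (Finset.card_le_card ?_)⟩
      intro i hi
      exact Finset.mem_filter.2 ⟨Finset.mem_univ _, hJ0 i hi⟩
  rw [h1]
  apply IsCompact.isClosed
  apply IsCompact.image
  · apply (isCompact_stdSimplex ℝ (Fin (d + 1))).inter_right
    apply Set.Finite.isClosed_biUnion (Set.toFinite _)
    intro J _
    have : {a : Fin (d + 1) → ℝ | ∀ i ∈ J, a i = 0} = ⋂ i ∈ J, {a | a i = 0} := by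
      ext a; simp
    rw [this]
    exact isClosed_biInter fun i _ => isClosed_eq (continuous_apply i) continuous_const
  · fun_prop

theorem skel_closed (k : ℕ) : IsClosed (X.skel k) := by
  rw [skel_eq]
  exact closed_union X _ (sk_closed X k) (sk_sub X k)

theorem skel_sub (k : ℕ) : ∃ (ι : Type) (A : ι → AffineSubspace ℝ (E d)), Countable ι ∧
    (∀ n, Module.finrank ℝ (A n).direction + k ≤ d) ∧ X.skel k ⊆ ⋃ n, (A n : Set (E d)) := by
  classical
  haveI := cntb X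
  refine ⟨{q : Fl × Finset (Fin (d + 1)) // q.2.Nonempty ∧ q.2.card + k ≤ d + 1},
    fun q => affineSpan ℝ ((fun i => X.pt (X.L q.1.1 i)) '' (q.1.2 : Set (Fin (d + 1)))),
    inferInstance, ?_, ?_⟩
  · rintro ⟨⟨Φ, S⟩, hne, hS⟩
    simp only at hne hS ⊢
    rw [direction_affineSpan]
    have hpos : 0 < S.card := hne.card_pos
    have h1 := (X.aff Φ).finrank_vectorSpan_image_finset (s := S) (n := S.card - 1) (by omega)
    rw [Finset.coe_image] at h1
    rw [h1]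
    omega
  · rintro x ⟨Φ, a, ha, hs, hx, hk⟩
    have hsplit := Finset.card_filter_add_card_filter_not (s := (Finset.univ : Finset (Fin (d + 1))))
      (fun i => a i = 0)
    rw [Finset.card_univ, Fintype.card_fin] at hsplit
    have hne : (Finset.univ.filter fun i => ¬ a i = 0).Nonempty := by
      by_contra hcon
      rw [Finset.not_nonempty_iff_eq_empty, Finset.filter_eq_empty_iff] at hcon
      have : ∑ i, a i = 0 := Finset.sum_eq_zero fun i hi => not_not.1 (hcon hi)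
      rw [hs] at this
      exact one_ne_zero this
    refine mem_iUnion.2 ⟨⟨⟨Φ, Finset.univ.filter fun i => ¬ a i = 0⟩, hne, ?_⟩, ?_⟩
    · simp only
      omega
    · simp only
      rw [hx, ← Finset.affineCombination_eq_linear_combination _ _ _ hs]
      apply affineCombination_mem_affineSpan_image hs
      intro i _ hi
      by_contra h0
      exact hi (by simpa using h0)

end CellAux

open CellAux in
theorem cell_thm : S_CELL := by
  intro d Fl V X
  exact ⟨cntb X, mem_cell X, mem_intc X, cell_cl X, cell_int_ne X, cell_cpt X, int_eq X, nbhd X,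
    fun 𝒜 => closed_bUnion X 𝒜 _ (fun Φ => (cell_cpt X Φ).isClosed) (fun Φ => subset_rfl),
    skel_closed X, skel_sub X⟩

end TL
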