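import Pool.Agent.Helper22.TL.Spec

set_option autoImplicit false

/-! # TL, part CONN: complements of countably many affine subspaces of codimension two -/

namespace TL

open Set MeasureTheory

theorem CONN_aux {d : ℕ} (A : AffineSubspace ℝ (E d)) (hA : Module.finrank ℝ A.direction + 2 ≤ d)
    (p : E d) : affineSpan ℝ (insert p (A : Set (E d))) ≠ ⊤ := by
  intro h
  have h1 := finrank_vectorSpan_insert_le A p
  rw [← direction_affineSpan, h, AffineSubspace.direction_top, finrank_top] at h1
  rw [finrank_euclideanSpace_fin] at h1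
  omega

theorem CONN_exists {d : ℕ} (U : Set (E d)) (hU : IsOpen U) (hne : U.Nonempty) (κ : Type)
    [Countable κ] (B : κ → AffineSubspace ℝ (E d)) (hB : ∀ n, B n ≠ ⊤) :
    ∃ r ∈ U, ∀ n, r ∉ B n := by
  by_contra hcon
  push Not at hcon
  have h1 : U ⊆ ⋃ n, (B n : Set (E d)) := by
    intro x hx
    obtain ⟨n, hn⟩ := hcon x hx
    exact mem_iUnion.2 ⟨n, hn⟩
  have h2 : (volume : Measure (E d)) (⋃ n, (B n : Set (E d))) = 0 := by
    rw [measure_iUnion_null_iff]
    intro n
    exact Measure.addHaar_affineSubspace _ _ (hB n)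
  have h3 : (0 : ENNReal) < (volume : Measure (E d)) U := hU.measure_pos _ hne
  exact absurd (measure_mono_null h1 h2) h3.ne'

theorem CONN_seg {d : ℕ} (A : AffineSubspace ℝ (E d)) (p r z : E d) (hp : p ∉ A)
    (hr : r ∉ affineSpan ℝ (insert p (A : Set (E d)))) (hz : z ∈ segment ℝ p r) : z ∉ A := by
  intro hzA
  rw [segment_eq_image_lineMap] at hz
  obtain ⟨t, _, rfl⟩ := hz
  have ht : t ≠ 0 := by
    rintro rfl
    rw [AffineMap.lineMap_apply_zero] at hzA
    exact hp hzA
  apply hr
  have h1 : AffineMap.lineMap p (AffineMap.lineMap p r t) t⁻¹ = r := by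
    rw [AffineMap.lineMap_apply, AffineMap.lineMap_apply]
    simp [smul_smul, ht]
  have hmp : p ∈ affineSpan ℝ (insert p (A : Set (E d))) :=
    subset_affineSpan ℝ _ (mem_insert _ _)
  have hmz : AffineMap.lineMap p r t ∈ affineSpan ℝ (insert p (A : Set (E d))) :=
    subset_affineSpan ℝ _ (mem_insert_of_mem _ hzA)
  have := AffineMap.lineMap_mem (Q := affineSpan ℝ (insert p (A : Set (E d)))) t⁻¹ hmp hmz
  rwa [h1] at this

theorem conn_thm : S_CONN := by
  intro d U ι A hι hU hc hA
  have hne : ∀ n, A n ≠ ⊤ := by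
    intro n h
    have := hA n
    rw [h, AffineSubspace.direction_top, finrank_top, finrank_euclideanSpace_fin] at this
    omega
  refine ⟨?_, ?_⟩
  · apply isPreconnected_of_forall_pair
    intro p hp q hq
    have hpn : ∀ n, p ∉ A n := fun n hn => hp.2 (mem_iUnion.2 ⟨n, hn⟩)
    have hqn : ∀ n, q ∉ A n := fun n hn => hq.2 (mem_iUnion.2 ⟨n, hn⟩)
    obtain ⟨r, hrU, hr⟩ := CONN_exists U hU ⟨p, hp.1⟩ (ι ⊕ ι)
      (Sum.elim (fun n => affineSpan ℝ (insert p (A n : Set (E d))))
        (fun n => affineSpan ℝ (insert q (A n : Set (E d))))) (by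
        rintro (n | n)
        · exact CONN_aux _ (hA n) p
        · exact CONN_aux _ (hA n) q)
    refine ⟨segment ℝ p r ∪ segment ℝ q r, ?_, Or.inl (left_mem_segment ℝ p r),
      Or.inr (left_mem_segment ℝ q r), ?_⟩
    · rintro z (hz | hz)
      · refine ⟨hc.segment_subset hp.1 hrU hz, ?_⟩
        rw [mem_iUnion]
        rintro ⟨n, hn⟩
        exact CONN_seg (A n) p r z (hpn n) (hr (Sum.inl n)) hz hn
      · refine ⟨hc.segment_subset hq.1 hrU hz, ?_⟩
        rw [mem_iUnion]
        rintro ⟨n, hn⟩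
        exact CONN_seg (A n) q r z (hqn n) (hr (Sum.inr n)) hz hn
    · exact IsPreconnected.union r (right_mem_segment ℝ p r) (right_mem_segment ℝ q r)
        (convex_segment p r).isPreconnected (convex_segment q r).isPreconnected
  · intro hUne
    obtain ⟨r, hrU, hr⟩ := CONN_exists U hU hUne ι A hne
    refine ⟨r, hrU, ?_⟩
    rw [mem_iUnion]
    rintro ⟨n, hn⟩
    exact hr n hn

end TL
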